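import Pool.Agent.Helper14.SP2.Defs

/-!
# Project SP2: statements, part B (counting)
-/

set_option autoImplicit false

namespace Pool.Agent.Helper14.SP

open Finset Classical
open Pool.Agent.Helper97.RE (IsPath Rich PP Clean Cb)

variable {ι V : Type} [Fintype ι] [Fintype V]

/-! ### B1: fibres of truncation -/

theorem card_wk_fiber (G : SimpleGraph V) (Δ : ℕ) (hΔ : ∀ w, G.degree w ≤ Δ) (i j : ι → ℕ)
    (hij : ∀ c, i c ≤ j c) (y : Obj ι V) :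
    #{x ∈ WK G j | tr i x = y} ≤ Δ ^ (∑ c, (j c - i c)) := by
  sorry

/-! ### B2: all walk systems -/

theorem card_wk_le (G : SimpleGraph V) (Δ : ℕ) (hΔ : ∀ w, G.degree w ≤ Δ) (j : ι → ℕ)
    (C : Finset V) : #{x ∈ WK G j | x.1 ∈ C} ≤ #C * Δ ^ (∑ c, j c) := by
  sorry

theorem card_wk_ge (G : SimpleGraph V) (d : ℕ) (hd : ∀ w, d ≤ G.degree w) (j : ι → ℕ)
    (u : V) : d ^ (∑ c, j c) ≤ #{x ∈ WK G j | x.1 = u} := by
  sorry

/-! ### B3: walk systems through a given set -/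

theorem card_wk_hit (G : SimpleGraph V) (Δ : ℕ) (hΔ : ∀ w, G.degree w ≤ Δ) (j : ι → ℕ)
    (C Y : Finset V) :
    #{x ∈ WK G j | x.1 ∈ C ∧ ∃ c m, 1 ≤ m ∧ m ≤ j c ∧ x.2 c m ∈ Y} ≤
      (∑ c, j c) * (#Y * (#C * Δ ^ (∑ c, j c - 1))) := by
  sorry

/-! ### B4: walk systems which are not copies -/

theorem card_wk_not_sp (G : SimpleGraph V) (Δ : ℕ) (hΔ : ∀ w, G.degree w ≤ Δ) (j : ι → ℕ)
    (C : Finset V) :
    #{x ∈ WK G j | x.1 ∈ C ∧ ¬ Sp G j x} ≤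
      (∑ c, (j c + 1)) ^ 2 * (#C * Δ ^ (∑ c, j c - 1)) := by
  sorry

/-! ### B5: walk systems with a given window on a leg or at the centre -/

theorem card_wk_win (G : SimpleGraph V) (Δ : ℕ) (hΔ : ∀ w, G.degree w ≤ Δ) (j : ι → ℕ)
    (c : ι) (o m : ℕ) (h : o + m ≤ j c) (P : Finset (Fin (m + 1) → V)) :
    #{x ∈ WK G j | (fun a : Fin (m + 1) => x.2 c (o + a)) ∈ P} ≤ #P * Δ ^ (∑ c, j c - m) := by
  sorry

theorem card_wk_cwin (G : SimpleGraph V) (Δ : ℕ) (hΔ : ∀ w, G.degree w ≤ Δ) (j : ι → ℕ)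
    (c c' : ι) (hc : c ≠ c') (h : 1 ≤ j c) (h' : 1 ≤ j c') (P : Finset (Fin (2 + 1) → V)) :
    #{x ∈ WK G j | ![x.2 c 1, x.1, x.2 c' 1] ∈ P} ≤ #P * Δ ^ (∑ c, j c - 2) := by
  sorry

/-! ### B6: clean paths and clean copies with given ends -/

omit [Fintype ι] in
theorem card_cln_le (G : SimpleGraph V) (L : ℕ) (R : ℕ → ℕ) (n : ℕ) (hn : n ≤ L) (x y : V)
    (P : Finset (ℕ → V)) (hP : ∀ p ∈ P, (∀ m, p m = p (min m n)) ∧
      (∀ m, m < n → G.Adj (p m) (p (m + 1))) ∧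
      (∀ m m', m ≤ n → m' ≤ n → p m = p m' → m = m') ∧ Cln G L R n p ∧ p 0 = x ∧ p n = y) :
    #P ≤ Cb R n := by
  sorry

/-- copies extending a given copy `y` of type `i`, with given roots -/
theorem card_good_fiber (G : SimpleGraph V) (L : ℕ) (R : ℕ → ℕ) (i j : ι → ℕ)
    (hij : ∀ c, i c ≤ j c) (hL : ∀ c, j c ≤ L) (S : Finset (Obj ι V))
    (hS : ∀ x ∈ S, Good G L R j x) (y : Obj ι V) (X : ι → V) :
    #{x ∈ S | tr i x = y ∧ ends j x = X} ≤ ∏ c, Cb R (j c - i c) := by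
  sorry

/-- copies with given centre and given roots -/
theorem card_good_le (G : SimpleGraph V) (L : ℕ) (R : ℕ → ℕ) (j : ι → ℕ) (hL : ∀ c, j c ≤ L)
    (S : Finset (Obj ι V)) (hS : ∀ x ∈ S, Good G L R j x) (u : V) (X : ι → V) :
    #{x ∈ S | x.1 = u ∧ ends j x = X} ≤ ∏ c, Cb R (j c) := by
  sorry

/-! ### B7: two level-1 vertices determine the centre up to `R 2` choices -/

omit [Fintype ι] in
theorem card_centre_le (G : SimpleGraph V) (L : ℕ) (R : ℕ → ℕ) (i : ι → ℕ) (hi : ∀ c, 1 ≤ i c)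
    (S : Finset (Obj ι V)) (hS : ∀ x ∈ S, Good G L R i x) (c c' : ι) (hc : c ≠ c') (w w' : V) :
    #((S.filter fun x => x.2 c 1 = w ∧ x.2 c' 1 = w').image Prod.fst) ≤ R 2 := by
  sorry

omit [Fintype ι] [Fintype V] in
theorem Good.tr {G : SimpleGraph V} {L : ℕ} {R : ℕ → ℕ} {i j : ι → ℕ} {x : Obj ι V}
    (h : Good G L R j x) (hi : ∀ c, 1 ≤ i c) (hij : ∀ c, i c ≤ j c) : Good G L R i (tr i x) := by
  sorry

omit [Fintype ι] [Fintype V] in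
theorem Good.wk {G : SimpleGraph V} {L : ℕ} {R : ℕ → ℕ} {j : ι → ℕ} {x : Obj ι V}
    (h : Good G L R j x) : Wk G j x :=
  ⟨h.can, h.sp.start, h.sp.adj⟩

/-! ### B8: most vertices are centres of many good copies -/

/-- few `m`-paths have rich ends, for `2 ≤ m ≤ L` -/
def Rare (G : SimpleGraph V) (E d L : ℕ) (R : ℕ → ℕ) : Prop :=
  ∀ m, 2 ≤ m → m ≤ L →
    E * #{p ∈ PP G m | Rich G m (R m) (p 0) (p (Fin.last m))} ≤ Fintype.card V * d ^ m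

/-- the walk systems which are copies but not good are few -/
theorem card_not_good (j : ι → ℕ) (hj : ∀ c, 1 ≤ j c) (L : ℕ) (hL : ∀ c, j c ≤ L)
    (hL2 : 2 ≤ L ∨ Subsingleton ι) (K : ℕ) : ∃ M : ℕ, ∀ {V : Type} [Fintype V]
      (G : SimpleGraph V) (d E : ℕ) (R : ℕ → ℕ), (∀ w, G.degree w ≤ K * d) → 1 ≤ d →
      Rare G E d L R →
      E * #{x ∈ WK G j | Sp G j x ∧ ¬ Good G L R j x} ≤
        M * (Fintype.card V * d ^ (∑ c, j c)) := by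
  sorry

theorem many_good (j : ι → ℕ) (hj : ∀ c, 1 ≤ j c) (L : ℕ) (hL : ∀ c, j c ≤ L)
    (hL2 : 2 ≤ L ∨ Subsingleton ι) (K E : ℕ) : ∃ E' : ℕ, ∀ NY : ℕ, ∃ d0 : ℕ,
      ∀ {V : Type} [Fintype V] (G : SimpleGraph V) (d : ℕ) (R : ℕ → ℕ),
      (∀ w, d ≤ G.degree w ∧ G.degree w ≤ K * d) → d0 ≤ d → Rare G E' d L R →
      ∃ Bad : Finset V, E * #Bad ≤ Fintype.card V ∧ ∀ u ∉ Bad, ∀ Y : Finset V, #Y ≤ NY → u ∉ Y →
        d ^ (∑ c, j c) ≤ 2 * #{x ∈ WK G j | Good G L R j x ∧ x.1 = u ∧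
          ∀ c m, m ≤ j c → x.2 c m ∉ Y} := by
  sorry

end Pool.Agent.Helper14.SP
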