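import Pool.Agent.Helper14.SP2.Defs

/-!
# Project SP2: statements, part A (general lemmas)
-/

set_option autoImplicit false

namespace Pool.Agent.Helper14.SP

open Finset Classical
open Pool.Agent.Helper97.RE (IsPath Rich PP Clean Cb)
open Pool.Agent.Helper55.JS (BV pt blow)

/-! ### A1: from flexible roots to the blowup -/

theorem blow_of_flex {s t : ℕ} {j : Fin s → ℕ} (hj : ∀ c, 1 ≤ j c) {V : Type} (G : SimpleGraph V)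
    (X : Fin s → V) (N : ℕ) (hN : t * (∑ c, j c + 1) ≤ N) (h : Flex G j N X) :
    (blow s t j).IsContained G := by
  sorry

/-! ### A2: attaching long legs -/

theorem ext_of_rich {F V : Type} [Fintype F] (G : SimpleGraph V) (J : F → ℕ)
    (hJ : ∀ f, 1 ≤ J f) (z : F → V) (hz : Function.Injective z) (u : V) (Z : Finset V) (N : ℕ)
    (hN : #Z + ∑ f, (J f + 2) + 1 ≤ N) (h : ∀ f, Rich G (J f) N u (z f)) :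
    Ext G J z u Z := by
  sorry

/-- a leg to `z0` is given, the other legs are attached -/
theorem ext_cons {F V : Type} [Fintype F] (G : SimpleGraph V) (n : ℕ) (hn : 1 ≤ n) (J : F → ℕ)
    (hJ : ∀ f, 1 ≤ J f) (z0 : V) (z : F → V) (hz : Function.Injective z) (hz0 : ∀ f, z f ≠ z0)
    (u : V) (Z : Finset V) (q : ℕ → V) (hq0 : q 0 = u) (hqn : q n = z0)
    (hqa : ∀ m, m < n → G.Adj (q m) (q (m + 1)))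
    (hqi : ∀ m m', m ≤ n → m' ≤ n → q m = q m' → m = m')
    (hqZ : ∀ m, 1 ≤ m → m < n → q m ∉ Z ∧ ∀ f, q m ≠ z f) (N : ℕ)
    (hN : #Z + n + ∑ f, (J f + 2) + 3 ≤ N) (h : ∀ f, Rich G (J f) N u (z f)) :
    Ext G (Sum.elim (fun _ : Unit => n) J) (Sum.elim (fun _ : Unit => z0) z) u Z := by
  sorry

theorem Ext.anti {F V : Type} {G : SimpleGraph V} {J : F → ℕ} {z : F → V} {u : V}
    {Z Z' : Finset V} (h : Z ⊆ Z') (h' : Ext G J z u Z') : Ext G J z u Z := by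
  obtain ⟨x, h1, h2, h3, h4⟩ := h'
  exact ⟨x, h1, h2, h3, fun f m a b hm => h4 f m a b (h hm)⟩

theorem flex_of_short {ι F V : Type} [Fintype ι] [Fintype F] (G : SimpleGraph V) (j : ι → ℕ)
    (J : F → ℕ) (hj : ∀ c, 1 ≤ j c) (hJ : ∀ f, 1 ≤ J f) (X : ι → V) (z : F → V) (Y : Finset V)
    (hz : ∀ f, z f ∈ Y) (hX : ∀ c, X c ∉ Y) (N : ℕ)
    (h : ∀ Z : Finset V, #Z ≤ N → (∀ c, X c ∉ Z) → ∃ x : Obj ι V, Sp G j x ∧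
      (∀ c, x.2 c (j c) = X c) ∧ x.1 ∉ Z ∧ x.1 ∉ Y ∧
      (∀ c m, 1 ≤ m → m < j c → x.2 c m ∉ Z ∧ x.2 c m ∉ Y) ∧ Ext G J z x.1 (Z ∪ vs j x)) :
    Flex G (Sum.elim j J) N (Sum.elim X z) := by
  sorry

theorem Flex.congr {ι ι' V : Type} {G : SimpleGraph V} {j : ι → ℕ} {N : ℕ} {X : ι → V}
    (h : Flex G j N X) (e : ι' ≃ ι) : Flex G (fun c => j (e c)) N (fun c => X (e c)) := by
  sorry

/-! ### A3: Lemma Z (reflection) -/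

theorem lemZ {ι V : Type} [Fintype ι] (G : SimpleGraph V) (i j : ι → ℕ)
    (hi : ∀ c, 1 ≤ i c ∧ i c ≤ j c) (h1 : ∀ c c', i c = 1 → i c' = 1 → c = c')
    (N N0 : ℕ) (hN : N0 + 2 * (∑ c, (j c + 1) + 1) ≤ N) (Y : Finset V)
    (Ψ : V → Finset V → Prop) (hΨ : ∀ u Z Z', Z ⊆ Z' → Ψ u Z' → Ψ u Z)
    (F : Set (Obj ι V)) (hne : F.Nonempty)
    (hF : ∀ x ∈ F, Sp G i x ∧ x.1 ∉ Y ∧ ∀ c m, m ≤ i c → x.2 c m ∉ Y)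
    (ha : ∀ x ∈ F, ∀ B : Finset V, #B ≤ N → ∃ y ∈ F, (∀ c, y.2 c (i c) = x.2 c (i c)) ∧
      Disjoint (inn i y) B ∧ Ψ y.1 (B ∪ vs i y))
    (hb : ∀ x ∈ F, ∀ l, i l < j l → ∀ B : Finset V, #B ≤ N → ∃ y ∈ F, y.1 = x.1 ∧
      (∀ c m, m ≤ i c → (c = l → m < i l) → y.2 c m = x.2 c m) ∧ y.2 l (i l) ∉ B) :
    ∃ X : ι → V, (∀ c, X c ∉ Y) ∧ ∀ Z : Finset V, #Z ≤ N0 → (∀ c, X c ∉ Z) →
      ∃ x : Obj ι V, Sp G j x ∧ (∀ c, x.2 c (j c) = X c) ∧ x.1 ∉ Z ∧ x.1 ∉ Y ∧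
        (∀ c m, 1 ≤ m → m < j c → x.2 c m ∉ Z ∧ x.2 c m ∉ Y) ∧ Ψ x.1 (Z ∪ vs j x) := by
  sorry

/-! ### A4: flexible family or cover -/

theorem ff {ι V Ξ : Type} [Fintype ι] (i j : ι → ℕ) (hi : ∀ c, 1 ≤ i c) (N H : ℕ)
    (Ω : Finset (Obj ι V × Ξ)) (Blk : Obj ι V × Ξ → Finset V → Prop)
    (hcov : ∀ T : (ι → V) × Ξ → Finset V, (∀ ρ, #(T ρ) ≤ N) →
      2 * #{ω ∈ Ω | Blk ω (T (ends i ω.1, ω.2))} ≤ #Ω)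
    (hH : ∀ y, #{ω ∈ Ω | (tr i ω.1, ω.2) = y} ≤ H)
    (hst : ∀ l, i l < j l →
      2 * (Fintype.card ι * (N * H * #(Ω.image fun ω => (tr (dn i l) ω.1, ω.2)))) < #Ω)
    (hne : Ω.Nonempty) :
    ∃ F ⊆ Ω, F.Nonempty ∧
      (∀ ω ∈ F, ∀ B : Finset V, #B ≤ N →
        ∃ ω' ∈ F, ω'.2 = ω.2 ∧ ends i ω'.1 = ends i ω.1 ∧ ¬ Blk ω' B) ∧
      (∀ ω ∈ F, ∀ l, i l < j l → ∀ B : Finset V, #B ≤ N →
        ∃ ω' ∈ F, ω'.2 = ω.2 ∧ tr (dn i l) ω'.1 = tr (dn i l) ω.1 ∧ ω'.1.2 l (i l) ∉ B) := by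
  sorry

theorem cov_of_hit {ι V Ξ : Type} [Fintype ι] (m : ι → ℕ) (N C EN : ℕ)
    (Ω1 Ω2 Ω : Finset (Obj ι V × Ξ)) (h1 : #Ω1 ≤ 2 * #Ω2) (hΩ : Ω ⊆ Ω2) (hC : #Ω2 ≤ C * #Ω)
    (hEN : 4 * N * C ≤ EN) (hEN1 : 1 ≤ EN)
    (hit : ∀ (κ : (ι → V) × Ξ) (β : V),
      EN * #{ω ∈ Ω2 | (ends m ω.1, ω.2) = κ ∧ β ∈ inn m ω.1} ≤
        #{ω ∈ Ω1 | (ends m ω.1, ω.2) = κ})
    (T : (ι → V) × Ξ → Finset V) (hT : ∀ ρ, #(T ρ) ≤ N) :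
    2 * #{ω ∈ Ω | ¬ Disjoint (inn m ω.1) (T (ends m ω.1, ω.2))} ≤ #Ω := by
  sorry

/-- the size of the sets which have to be avoided in Lemma Z -/
def nmin {ι : Type} [Fintype ι] (j : ι → ℕ) (N0 : ℕ) : ℕ := N0 + 2 * (∑ c, (j c + 1) + 1)

/-- the richness needed for the long legs -/
def rmin {ι : Type} [Fintype ι] (j : ι → ℕ) (F : Type) [Fintype F] (k N0 : ℕ) : ℕ :=
  N0 + 5 * (∑ c, (j c + 1) + 2) + Fintype.card F * (k + 2) + k + 5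

/-- flexible family with attachments `ζ` -/
theorem flex_of_family {ι F Ξ V : Type} [Fintype ι] [Fintype F] (G : SimpleGraph V)
    (i j : ι → ℕ) (k N0 r H : ℕ) (hi : ∀ c, 1 ≤ i c ∧ i c ≤ j c)
    (hi1 : ∀ c c', i c = 1 → i c' = 1 → c = c') (hk : 1 ≤ k) (hr : rmin j F k N0 ≤ r)
    (Ω : Finset (Obj ι V × Ξ)) (ζ : Ξ → F → V) (hne : Ω.Nonempty)
    (hΩ : ∀ ω ∈ Ω, Sp G i ω.1 ∧ Function.Injective (ζ ω.2) ∧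
      ∀ f, Rich G k r ω.1.1 (ζ ω.2 f) ∧ ζ ω.2 f ∉ vs i ω.1)
    (hcov : ∀ T : (ι → V) × Ξ → Finset V, (∀ ρ, #(T ρ) ≤ nmin j N0) →
      2 * #{ω ∈ Ω | ¬ Disjoint (inn i ω.1) (T (ends i ω.1, ω.2))} ≤ #Ω)
    (hH : ∀ y, #{ω ∈ Ω | (tr i ω.1, ω.2) = y} ≤ H)
    (hst : ∀ l, i l < j l → 2 * (Fintype.card ι * (nmin j N0 * H *
      #(Ω.image fun ω => (tr (dn i l) ω.1, ω.2)))) < #Ω) :
    ∃ X : ι ⊕ F → V, Flex G (Sum.elim j fun _ => k) N0 X := by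
  sorry

/-! ### A5: closure -/

theorem acl {ι : Type} [Fintype ι] (m0 : ι → ℕ) (hm0 : ∀ c, 1 ≤ m0 c) (C2 : ℕ) (E : ℕ → ℕ) :
    ∃ Nm : ℕ, ∀ {V Ξ : Type} (Ω : Finset (Obj ι V × Ξ)), Ω.Nonempty →
      (∀ c c', c ≠ c' → ∀ w w', #((Ω.filter fun ω => ω.1.2 c 1 = w ∧ ω.1.2 c' 1 = w').image
        fun ω => ω.1.1) ≤ C2) →
      ∃ N, 1 ≤ N ∧ N ≤ Nm ∧
        ((∃ T : (ι → V) × Ξ → Finset V, (∀ ρ, #(T ρ) ≤ N) ∧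
            #Ω ≤ N * #{ω ∈ Ω | ω.1.1 ∈ T (ends m0 ω.1, ω.2)}) ∨
          ∃ (m : ι → ℕ) (Ω1 Ω2 : Finset (Obj ι V × Ξ)), (∀ c, 1 ≤ m c ∧ m c ≤ m0 c) ∧
            (∀ c c', m c = 1 → m c' = 1 → c = c') ∧ Ω1 ⊆ Ω ∧ Ω2 ⊆ Ω1 ∧ #Ω ≤ N * #Ω1 ∧
            #Ω1 ≤ 2 * #Ω2 ∧
            (∃ T : (ι → V) × Ξ → Finset (ι → V), (∀ ρ, #(T ρ) ≤ N) ∧
              ∀ ω ∈ Ω1, ends m ω.1 ∈ T (ends m0 ω.1, ω.2)) ∧
            ∀ (κ : (ι → V) × Ξ) (β : V),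
              E N * #{ω ∈ Ω2 | (ends m ω.1, ω.2) = κ ∧ β ∈ inn m ω.1} ≤
                #{ω ∈ Ω1 | (ends m ω.1, ω.2) = κ}) := by
  sorry

end Pool.Agent.Helper14.SP
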