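import Pool.Agent.Helper14.SP2.St.L

/-!
# Project SP2: statements, part C (hubs, worlds `l` with `l` less than the longest legs)
-/

set_option autoImplicit false

namespace Pool.Agent.Helper14.SP

open Finset Classical
open Pool.Agent.Helper97.RE (IsPath Rich PP Clean Cb)

theorem Rich.symm {V : Type} {G : SimpleGraph V} {m r : ℕ} {x y : V} (h : Rich G m r x y) :
    Rich G m r y x := by
  sorry

/-! ### C1: pruning a bipartite graph -/

theorem prune {V : Type} (G : SimpleGraph V) (W0 A0 : Finset V) (D r : ℕ) (hDr : D ≤ r)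
    (hW : ∀ w ∈ W0, r ≤ #{a ∈ A0 | G.Adj w a}) :
    ∃ W ⊆ W0, ∃ A ⊆ A0, (∀ w ∈ W, D ≤ #{a ∈ A | G.Adj w a}) ∧
      (∀ a ∈ A, D ≤ #{w ∈ W | G.Adj a w}) ∧ (r - D) * #(W0 \ W) ≤ D * #A0 := by
  sorry

/-! ### C0: choosing neighbours which are good for many objects -/

theorem pick (σ : Type) [Fintype σ] (K K' E : ℕ) : ∃ E1 d0 : ℕ, ∀ {α β : Type} (A : Finset α)
    (P : Finset β) (rel : α → β → Prop) (d M : ℕ), d0 ≤ d → #A ≤ K * d → #P ≤ K' * M →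
    d * M ≤ E * #{q ∈ A ×ˢ P | rel q.1 q.2} → 1 ≤ M →
    ∃ a : σ → α, Function.Injective a ∧ (∀ i, a i ∈ A) ∧ M ≤ E1 * #{p ∈ P | ∀ i, rel (a i) p} := by
  sorry

/-! ### C2: hubs -/

/-- every vertex of `W` is rich (length `l`) to all the neighbours `b i` of `v`, and the bipartite
graph between `W` and `A` has minimum degree at least `D` -/
structure Hub {V : Type} (G : SimpleGraph V) (l N D m : ℕ) (v : V) (b : Fin m → V)
    (W A : Finset V) : Prop where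
  inj : Function.Injective b
  adj : ∀ i, G.Adj v (b i)
  rich : ∀ w ∈ W, ∀ i, Rich G l N w (b i)
  degW : ∀ w ∈ W, D ≤ #{a ∈ A | G.Adj w a}
  degA : ∀ a ∈ A, D ≤ #{w ∈ W | G.Adj a w}

/-- hub lemma; `l = h + 1` -/
theorem hub (K h E m : ℕ) (hh : 1 ≤ h) (hm : 1 ≤ m) : ∃ E1 : ℕ, ∀ C1 D N : ℕ, ∃ r d0 : ℕ,
    ∀ {V : Type} [Fintype V] (G : SimpleGraph V) (d : ℕ), (∀ w, G.degree w ≤ K * d) → d0 ≤ d →
      ∀ (v : V) (Q : Finset (Fin (h + 1) → V)), (∀ p ∈ Q, IsPath G p ∧ p 0 = v) →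
      (∀ w, #{p ∈ Q | p (Fin.last h) = w} ≤ C1) →
      d ^ (h + 1) ≤ E * #{q ∈ (G.neighborFinset v) ×ˢ Q |
        Rich G (h + 1) r q.1 (q.2 (Fin.last h))} →
      ∃ (b : Fin m → V) (W A : Finset V), Hub G (h + 1) N D m v b W A ∧
        d ^ h ≤ E1 * #{p ∈ Q | p (Fin.last h) ∈ W} := by
  sorry

/-! ### C3: walks in a hub -/

theorem Hub.rich_b {V : Type} {G : SimpleGraph V} {l N D m : ℕ} {v : V} {b : Fin m → V}
    {W A : Finset V} (h : Hub G l N D m v b W A) (hl : 1 ≤ l) (J N' : ℕ) (hJ : l ≤ J)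
    (hD : N' + J + 2 ≤ D) (hN : N' + J + 2 ≤ N) (i : Fin m) (y : V) (hy : y ≠ b i)
    (h0 : Even (J - l) → y ∈ W) (h1 : ¬ Even (J - l) → y ∈ A) : Rich G J N' y (b i) := by
  sorry

theorem Hub.rich_v {V : Type} {G : SimpleGraph V} {l N D m : ℕ} {v : V} {b : Fin m → V}
    {W A : Finset V} (h : Hub G l N D m v b W A) (hl : 1 ≤ l) (J N' : ℕ) (hJ : l + 1 ≤ J)
    (hD : N' + J + 4 ≤ D) (hN : N' + J + 4 ≤ N) (hm : N' + J + 4 ≤ m) (y : V) (hy : y ≠ v)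
    (h0 : Even (J - (l + 1)) → y ∈ W) (h1 : ¬ Even (J - (l + 1)) → y ∈ A) :
    Rich G J N' y v := by
  sorry

/-! ### The statement of world `l` -/

/-- If shorter rich windows are very rare and many `l`-paths have rich ends, then there are
flexible roots. -/
def World {ι : Type} [Fintype ι] (j : ι → ℕ) (N0 K l : ℕ) : Prop :=
  ∀ E : ℕ, ∃ E' : ℕ, ∀ R : ℕ → ℕ, ∃ r A : ℕ, ∀ (V : Type) [Fintype V] [Nonempty V]
    (G : SimpleGraph V) (d : ℕ), (∀ w, d ≤ G.degree w ∧ G.degree w ≤ K * d) →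
    A * Fintype.card V ^ (Fintype.card ι - 1) ≤ d ^ (∑ c, j c) →
    Rare G E' d (l - 1) R →
    Fintype.card V * d ^ l < E * #{p ∈ PP G l | Rich G l r (p 0) (p (Fin.last l))} →
    ∃ X : ι → V, Flex G j N0 X

/-! ### C4: world `l`, no leg shorter than `l` -/

theorem world_zero {ι : Type} [Fintype ι] [Nonempty ι] (j : ι → ℕ) (N0 K l : ℕ) (hK : 1 ≤ K)
    (hl : 2 ≤ l) (hj : ∀ c, l ≤ j c) : World j N0 K l := by
  sorry

theorem World.congr {ι ι' : Type} [Fintype ι] [Fintype ι'] {j : ι → ℕ} {N0 K l : ℕ}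
    (h : World j N0 K l) (e : ι' ≃ ι) : World (fun c => j (e c)) N0 K l := by
  sorry

/-! ### C5: a common base for several hubs; `l = h + 2` -/

theorem common_base (F : Type) [Fintype F] (K h E m : ℕ) (hK : 1 ≤ K) (hh : 1 ≤ h)
    (hm : 1 ≤ m) : ∃ E' : ℕ, ∀ (R : ℕ → ℕ) (D N : ℕ), ∃ E2 r d0 : ℕ,
    ∀ {V : Type} [Fintype V] [Nonempty V] (G : SimpleGraph V) (d : ℕ),
      (∀ w, d ≤ G.degree w ∧ G.degree w ≤ K * d) → d0 ≤ d → Rare G E' d (h + 1) R →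
      ∀ Bad : Finset V, E' * #Bad ≤ Fintype.card V →
      Fintype.card V * d ^ (h + 2) <
        E * #{p ∈ PP G (h + 2) | Rich G (h + 2) r (p 0) (p (Fin.last (h + 2)))} →
      ∃ (v : F → V) (b : F → Fin m → V) (W A : F → Finset V) (C : Finset V),
        Function.Injective v ∧ (∀ f, Hub G (h + 2) N D m (v f) (b f) (W f) (A f)) ∧
        (∀ f, C ⊆ W f) ∧ Disjoint C Bad ∧ d ^ h ≤ E2 * #C := by
  sorry

/-! ### C6: numerical lemma -/

theorem num_mid (s1 q e m A n d : ℕ) (hs : 1 ≤ s1) (hq : 1 ≤ q) (h : e * q ≤ s1 * m)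
    (hd : 1 ≤ d) (hA : A ^ s1 * n ^ s1 ≤ d ^ e) : A * n ^ q ≤ d ^ m := by
  sorry

/-! ### C7: world `l`, some legs shorter than `l`; `l = h + 2` -/

theorem world_mid {ι F : Type} [Fintype ι] [Fintype F] [Nonempty ι] [Nonempty F] (j : ι → ℕ)
    (J : F → ℕ) (N0 K h : ℕ) (hK : 1 ≤ K) (hh : 1 ≤ h) (hj1 : ∀ c, 1 ≤ j c)
    (hj : ∀ c, j c < h + 2) (hJ : ∀ f, h + 2 ≤ J f)
    (hcond : (∑ c, j c + ∑ f, J f) * Fintype.card ι ≤
      (Fintype.card ι + Fintype.card F - 1) * (h + ∑ c, j c)) :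
    World (Sum.elim j J) N0 K (h + 2) := by
  sorry

/-! ### C8: the light world -/

theorem world_light {ι : Type} [Fintype ι] [Nonempty ι] (j : ι → ℕ) (N0 K L : ℕ)
    (hj : ∀ c, 1 ≤ j c) (hL : ∀ c, j c ≤ L) (hL2 : 2 ≤ L) : ∃ E' : ℕ, ∀ R : ℕ → ℕ,
    ∃ A : ℕ, ∀ (V : Type) [Fintype V] [Nonempty V] (G : SimpleGraph V) (d : ℕ),
    (∀ w, d ≤ G.degree w ∧ G.degree w ≤ K * d) →
    A * Fintype.card V ^ (Fintype.card ι - 1) ≤ d ^ (∑ c, j c) →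
    Rare G E' d L R → ∃ X : ι → V, Flex G j N0 X := by
  sorry

end Pool.Agent.Helper14.SP
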