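import Pool.Agent.Helper14.SP2.St.C

/-!
# Project SP2: statements, part D (world `k`, the length of the longest legs)

`ι` : the legs of length less than `k`;  `F` : the legs of length `k`.
-/

set_option autoImplicit false

namespace Pool.Agent.Helper14.SP

open Finset Classical
open Pool.Agent.Helper97.RE (IsPath Rich PP Clean Cb)

/-- many clean `(k - m)`-paths starting at `y` end in a vertex which is rich (length `k`) to `u` -/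
def Att {V : Type} [Fintype V] (G : SimpleGraph V) (k r B d : ℕ) (R : ℕ → ℕ) (m : ℕ) (u y : V) :
    Prop :=
  d ^ (k - m) ≤ B * #{p ∈ PP G (k - m) | p 0 = y ∧ Clean G (k - 1) R p ∧
    Rich G k r u (p (Fin.last (k - m)))}

/-- many clean `(k - 1)`-paths starting at `u` end in a vertex `v` with `Att (k - 1) u v` -/
def VT {V : Type} [Fintype V] (G : SimpleGraph V) (k r B d : ℕ) (R : ℕ → ℕ) (u : V) : Prop :=
  d ^ (k - 1) ≤ B * #{p ∈ PP G (k - 1) | p 0 = u ∧ Clean G (k - 1) R p ∧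
    Att G k r B d R (k - 1) u (p (Fin.last (k - 1)))}

/-- good copies with attachments -/
structure GA {ι V : Type} [Fintype V] (G : SimpleGraph V) (k r B d : ℕ) (R : ℕ → ℕ) (i : ι → ℕ)
    (x : Obj ι V) : Prop where
  good : Good G (k - 1) R i x
  att : ∀ c m, 1 ≤ m → m ≤ i c → Att G k r B d R m x.1 (x.2 c m)
  vt : VT G k r B d R x.1

theorem GA.tr {ι V : Type} [Fintype V] {G : SimpleGraph V} {k r B d : ℕ} {R : ℕ → ℕ}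
    {i j : ι → ℕ} {x : Obj ι V} (h : GA G k r B d R j x) (hi : ∀ c, 1 ≤ i c)
    (hij : ∀ c, i c ≤ j c) : GA G k r B d R i (tr i x) where
  good := h.good.tr hi hij
  att c m h1 h2 := by
    rw [tr_snd_le x h2]
    exact h.att c m h1 (h2.trans (hij c))
  vt := h.vt

/-! ### D1: there are many good copies with attachments -/

theorem copies_k {ι : Type} [Fintype ι] (j : ι → ℕ) (k : ℕ) (hj1 : ∀ c, 1 ≤ j c)
    (hj : ∀ c, j c < k) (hk : 3 ≤ k ∨ Subsingleton ι) (K E : ℕ) (hK : 1 ≤ K) : ∃ B E' : ℕ,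
    ∀ R : ℕ → ℕ, ∃ d0 : ℕ, ∀ {V : Type} [Fintype V] [Nonempty V] (G : SimpleGraph V) (d r : ℕ),
      (∀ w, d ≤ G.degree w ∧ G.degree w ≤ K * d) → d0 ≤ d → Rare G E' d (k - 1) R →
      Fintype.card V * d ^ k < E * #{p ∈ PP G k | Rich G k r (p 0) (p (Fin.last k))} →
      Fintype.card V * d ^ (∑ c, j c) ≤ B * #{x ∈ WK G j | GA G k r B d R j x} := by
  sorry

/-! ### D2: attachments -/

theorem attach (F : Type) [Fintype F] (k m K B M : ℕ) (R : ℕ → ℕ) (hm : 1 ≤ m) (hmk : m < k) :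
    ∃ C d0 : ℕ, ∀ {V O : Type} [Fintype V] (G : SimpleGraph V) (d r : ℕ),
      (∀ w, G.degree w ≤ K * d) → d0 ≤ d → ∀ (Ω : Finset O) (u y : O → V) (S : O → Finset V),
      (∀ ω ∈ Ω, Att G k r B d R m (u ω) (y ω) ∧ #(S ω) ≤ M) →
      ∃ ζ : V → F → V, #Ω ≤ C * #{ω ∈ Ω | Function.Injective (ζ (y ω)) ∧
        ∀ f, Rich G k r (u ω) (ζ (y ω) f) ∧ ζ (y ω) f ∉ S ω} := by
  sorry

/-! ### D3: numerical lemma -/

theorem num_k (k q F T A n d : ℕ) (hk : 1 ≤ k) (hq : 1 ≤ q) (hF : 1 ≤ F) (hA : 1 ≤ A)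
    (hT : (q - 1) * k + 1 ≤ T) (hn : 1 ≤ n)
    (h : A ^ (T + F * k) * n ^ (q - 1 + F) ≤ d ^ (T + F * k)) :
    A ≤ d ∧ A * n ^ (q - 1) ≤ d ^ T ∧ A * n ^ q ≤ d ^ (T + k) := by
  sorry

/-! ### D4: some leg of the closure has full length (5.2) -/

theorem stepA {ι : Type} [Fintype ι] (F : Type) [Fintype F] (i j : ι → ℕ) (k K B N0 : ℕ)
    (R : ℕ → ℕ) (hi : ∀ c, 1 ≤ i c ∧ i c ≤ j c) (hj : ∀ c, j c < k)
    (hi1 : ∀ c c', i c = 1 → i c' = 1 → c = c') (a : ι) (ha : i a = j a) : ∃ EN : ℕ,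
    ∀ N : ℕ, ∃ d0 : ℕ, ∀ {V : Type} [Fintype V] [Nonempty V] (G : SimpleGraph V) (d r : ℕ),
      (∀ w, G.degree w ≤ K * d) → d0 ≤ d → rmin j F k N0 ≤ r → ∀ Ω1 Ω2 : Finset (Obj ι V),
      (∀ x ∈ Ω1, GA G k r B d R j x) → Ω2 ⊆ Ω1 → #Ω1 ≤ 2 * #Ω2 →
      Fintype.card V * d ^ (∑ c, j c) ≤ N * #Ω2 →
      (∀ (W : ι → V) (β : V), EN * #{x ∈ Ω2 | ends i x = W ∧ β ∈ inn i x} ≤
        #{x ∈ Ω1 | ends i x = W}) →
      ∃ X : ι ⊕ F → V, Flex G (Sum.elim j fun _ => k) N0 X := by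
  sorry

/-! ### D5: the closure is not at level 1 (5.3, beginning) -/

theorem stepB1 {ι : Type} [Fintype ι] [Nonempty ι] (i j : ι → ℕ) (k K : ℕ) (R : ℕ → ℕ)
    (hi : ∀ c, 1 ≤ i c ∧ i c < j c) (hj : ∀ c, j c < k)
    (hi1 : ∀ c c', i c = 1 → i c' = 1 → c = c') : (∃ b, 2 ≤ i b) ∨ ∀ N : ℕ, ∃ d0 : ℕ,
    ∀ {V : Type} [Fintype V] [Nonempty V] (G : SimpleGraph V) (d : ℕ),
      (∀ w, G.degree w ≤ K * d) → d0 ≤ d → ∀ Ω1 : Finset (Obj ι V),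
      (∀ x ∈ Ω1, Good G (k - 1) R j x) → Fintype.card V * d ^ (∑ c, j c) ≤ N * #Ω1 →
      ∀ T : (ι → V) → Finset (ι → V), (∀ X, #(T X) ≤ N) →
      (∀ x ∈ Ω1, ends i x ∈ T (ends j x)) → False := by
  sorry

/-! ### D6: truncated copies (5.3, (P1), (P2)) -/

theorem trunc {ι : Type} [Fintype ι] [Nonempty ι] (i j : ι → ℕ) (k K N : ℕ) (R : ℕ → ℕ)
    (hi : ∀ c, 1 ≤ i c ∧ i c ≤ j c) (hj : ∀ c, j c < k) : ∃ C5 C6 : ℕ, ∀ E2 : ℕ, ∃ EN : ℕ,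
    ∀ {V : Type} [Fintype V] [Nonempty V] (G : SimpleGraph V) (d : ℕ),
      (∀ w, G.degree w ≤ K * d) → 1 ≤ d → ∀ Ω1 Ω2 : Finset (Obj ι V),
      (∀ x ∈ Ω1, Good G (k - 1) R j x) → Ω2 ⊆ Ω1 →
      Fintype.card V * d ^ (∑ c, j c) ≤ N * #Ω2 →
      ∀ T : (ι → V) → Finset (ι → V), (∀ X, #(T X) ≤ N) →
      (∀ x ∈ Ω1, ends i x ∈ T (ends j x)) →
      (∀ (W : ι → V) (β : V), EN * #{x ∈ Ω2 | ends i x = W ∧ β ∈ inn i x} ≤
        #{x ∈ Ω1 | ends i x = W}) →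
      ∃ T1 ⊆ Ω2.image (tr i),
        (∀ (W : ι → V) (β : V), E2 * #{x ∈ T1 | ends i x = W ∧ β ∈ inn i x} ≤
          #{x ∈ T1 | ends i x = W}) ∧
        (∀ x ∈ T1, d ^ (∑ c, j c) ≤ C5 * (Fintype.card V ^ (Fintype.card ι - 1) *
          #{x' ∈ T1 | ends i x' = ends i x})) ∧
        Fintype.card V * d ^ (∑ c, i c) ≤ C6 * #T1 := by
  sorry

/-! ### D7: the bipartite system (5.3, (P3)-(P5)) -/

/-- pairs of an object of `T2` and a vertex `V` with `(roots, V) ∈ EE`, `V` off the object -/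
noncomputable def Om {ι V : Type} [Fintype ι] [Fintype V] (i : ι → ℕ) (T2 : Finset (Obj ι V))
    (EE : Finset ((ι → V) × V)) : Finset (Obj ι V × V) :=
  (T2 ×ˢ univ).filter fun ω => (ends i ω.1, ω.2) ∈ EE ∧ ω.2 ∉ inn i ω.1

structure Sys {ι V : Type} [Fintype V] (G : SimpleGraph V) (k r B d : ℕ) (R : ℕ → ℕ)
    (i : ι → ℕ) (b : ι) (T2 : Finset (Obj ι V)) (EE : Finset ((ι → V) × V)) : Prop where
  ga : ∀ x ∈ T2, GA G k r B d R i x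
  uniq : ∀ x ∈ T2, ∀ x' ∈ T2, x.1 = x'.1 → ends i x = ends i x' → x = x'
  adj : ∀ e ∈ EE, G.Adj (e.1 b) e.2
  ne : ∀ e ∈ EE, ∀ c, e.2 ≠ e.1 c

theorem bip {ι : Type} [Fintype ι] (i : ι → ℕ) (b : ι) (hb : 2 ≤ i b) (hi : ∀ c, 1 ≤ i c)
    (k : ℕ) (hik : ∀ c, i c < k) (K B C5 C6 M0 M1 M2 N' : ℕ) (R : ℕ → ℕ) : ∃ E2 A0 : ℕ,
    ∀ {V : Type} [Fintype V] [Nonempty V] (G : SimpleGraph V) (d r T : ℕ),
      (∀ w, G.degree w ≤ K * d) → A0 ≤ d →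
      A0 * Fintype.card V ^ (Fintype.card ι) ≤ d ^ (T + k) → ∀ T1 : Finset (Obj ι V),
      (∀ x ∈ T1, GA G k r B d R i x) →
      (∀ (W : ι → V) (β : V), E2 * #{x ∈ T1 | ends i x = W ∧ β ∈ inn i x} ≤
        #{x ∈ T1 | ends i x = W}) →
      (∀ x ∈ T1, d ^ T ≤ C5 * (Fintype.card V ^ (Fintype.card ι - 1) *
        #{x' ∈ T1 | ends i x' = ends i x})) →
      Fintype.card V * d ^ (∑ c, i c) ≤ C6 * #T1 →
      ∃ (T2 : Finset (Obj ι V)) (EE : Finset ((ι → V) × V)), Sys G k r B d R i b T2 EE ∧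
        M0 * (#(EE.image fun e => Function.update e.1 b e.2) * Fintype.card V) ≤
          d ^ (k - 1) * #(Om i T2 EE) ∧
        M1 * (Fintype.card V * d ^ (∑ c, i c)) ≤ #(Om i T2 EE) ∧
        ∀ Tc : (ι → V) → V → Finset V, (∀ W v, #(Tc W v) ≤ N') →
          M2 * #{ω ∈ Om i T2 EE | ¬ Disjoint (inn i ω.1) (Tc (ends i ω.1) ω.2)} ≤
            #(Om i T2 EE) := by
  sorry

/-! ### D8: the base at distance `k - 1` (5.4) -/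

/-- the fan of `(x, V)`: the elements of `Om` with the same centre, the same ends of the legs
other than `b`, and the same `V` -/
noncomputable def fan {ι V : Type} [Fintype ι] [Fintype V] (i : ι → ℕ) (b : ι)
    (T2 : Finset (Obj ι V)) (EE : Finset ((ι → V) × V)) (ω : Obj ι V × V) : ℕ :=
  #{ω' ∈ Om i T2 EE | ω'.1.1 = ω.1.1 ∧
    Function.update (ends i ω'.1) b ω'.2 = Function.update (ends i ω.1) b ω.2}

theorem stepC {ι : Type} [Fintype ι] (F : Type) [Fintype F] (i j : ι → ℕ) (b : ι)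
    (k K B N0 : ℕ) (R : ℕ → ℕ) (hi : ∀ c, 1 ≤ i c ∧ i c ≤ j c) (hj : ∀ c, j c < k)
    (hb : 2 ≤ i b) (hbj : i b < j b) : ∃ M3 : ℕ, ∀ f0 : ℕ, ∃ M0 M1 d0 : ℕ,
    ∀ {V : Type} [Fintype V] [Nonempty V] (G : SimpleGraph V) (d r : ℕ),
      (∀ w, G.degree w ≤ K * d) → d0 ≤ d → rmin j F k N0 ≤ r →
      ∀ (T2 : Finset (Obj ι V)) (EE : Finset ((ι → V) × V)), Sys G k r B d R i b T2 EE →
      M0 * (#(EE.image fun e => Function.update e.1 b e.2) * Fintype.card V) ≤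
        d ^ (k - 1) * #(Om i T2 EE) →
      M1 * (Fintype.card V * d ^ (∑ c, i c)) ≤ #(Om i T2 EE) →
      (∃ X : ι ⊕ F → V, Flex G (Sum.elim j fun _ => k) N0 X) ∨
        #(Om i T2 EE) ≤ M3 * #{ω ∈ Om i T2 EE | f0 < fan i b T2 EE ω} := by
  sorry

/-! ### D9: kernels (5.5) -/

theorem kernel_clean (a L D M3 : ℕ) : ∃ M4 f0 M1 : ℕ, ∀ {α β γ : Type} (E : Finset (α × β))
    (A : α → Finset γ), (∀ e ∈ E, #(A e.1) ≤ a) →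
    #E ≤ M3 * #{e ∈ E | f0 < #{e' ∈ E | e'.2 = e.2}} → M1 * #(E.image Prod.fst) ≤ #E →
    ∃ E' ⊆ E, ∃ Ker : β → Finset γ, #E ≤ M4 * #E' ∧
      (∀ e ∈ E', D ≤ #{e' ∈ E' | e'.1 = e.1}) ∧ (∀ e ∈ E', D ≤ #{e' ∈ E' | e'.2 = e.2}) ∧
      (∀ e ∈ E', Ker e.2 ⊆ A e.1) ∧
      ∀ e ∈ E', ∀ z, z ∉ Ker e.2 →
        L * #{e' ∈ E' | e'.2 = e.2 ∧ z ∈ A e'.1} ≤ #{e' ∈ E' | e'.2 = e.2} := by
  sorry

/-! ### D10: the zigzag leg (5.6) -/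

/-- the vertices of leg `b` strictly between the centre and level `i b` -/
noncomputable def pth {ι V : Type} (i : ι → ℕ) (b : ι) (x : Obj ι V) : Finset V :=
  (Ico 1 (i b)).image (x.2 b)

theorem leg_walk {ι V : Type} [Fintype ι] (G : SimpleGraph V) (i : ι → ℕ) (b : ι)
    (hb : 1 ≤ i b) (h N : ℕ) (E' : Finset (Obj ι V × (V × (ι → V))))
    (Ker : V × (ι → V) → Finset V)
    (hE : ∀ e ∈ E', Sp G i e.1 ∧ e.2.1 = e.1.1 ∧ (∀ c, c ≠ b → e.2.2 c = e.1.2 c (i c)) ∧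
      G.Adj (e.1.2 b (i b)) (e.2.2 b) ∧ e.2.2 b ∉ inn i e.1)
    (huniq : ∀ e ∈ E', ∀ e' ∈ E', e.1.1 = e'.1.1 → ends i e.1 = ends i e'.1 → e.1 = e'.1)
    (hl : ∀ e ∈ E', 2 * (N + h) + 3 ≤ #{e' ∈ E' | e'.1 = e.1})
    (hr : ∀ e ∈ E', 4 * (N + h) + 4 ≤ #{e' ∈ E' | e'.2 = e.2})
    (hK : ∀ e ∈ E', Ker e.2 ⊆ pth i b e.1)
    (hK' : ∀ e ∈ E', ∀ z, z ∉ Ker e.2 →
      (2 * (N + h) + 2) * #{e' ∈ E' | e'.2 = e.2 ∧ z ∈ pth i b e'.1} ≤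
        #{e' ∈ E' | e'.2 = e.2})
    (e : Obj ι V × (V × (ι → V))) (he : e ∈ E') (Z : Finset V) (hZ : #Z ≤ N)
    (hZA : Disjoint (pth i b e.1) Z) (hu : e.1.1 ∉ Z) :
    ∃ q : ℕ → V, q 0 = e.1.1 ∧
      q (i b + h) = (if Even h then e.1.2 b (i b) else e.2.2 b) ∧
      (∀ m, m < i b + h → G.Adj (q m) (q (m + 1))) ∧
      (∀ m m', m ≤ i b + h → m' ≤ i b + h → q m = q m' → m = m') ∧
      ∀ m, 1 ≤ m → m < i b + h → q m ∉ Z := by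
  sorry

/-! ### D11: the end (5.7) -/

/-- the flexible family at the end -/
theorem stepD_flex {ι F V : Type} [Fintype ι] [Fintype F] [Fintype V] (G : SimpleGraph V)
    (i j : ι → ℕ) (b : ι) (k N0 r : ℕ) (hi : ∀ c, 1 ≤ i c ∧ i c ≤ j c) (hk : 1 ≤ k)
    (hi1 : ∀ c c', i c = 1 → i c' = 1 → c = c') (hr : rmin j F k N0 ≤ r)
    (Ω : Finset (Obj ι V × V)) (zb : Obj ι V × V → V) (ζ : V → F → V) (hne : Ω.Nonempty)
    (hzb : ∀ ω ∈ Ω, zb ω = if Even (j b - i b) then ω.1.2 b (i b) else ω.2)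
    (hΩ : ∀ ω ∈ Ω, tr i ω.1 = ω.1 ∧ Sp G i ω.1 ∧ ω.2 ∉ vs i ω.1)
    (huniq : ∀ ω ∈ Ω, ∀ ω' ∈ Ω, ω.1.1 = ω'.1.1 → ends i ω.1 = ends i ω'.1 → ω.1 = ω'.1)
    (hζ : ∀ ω ∈ Ω, Function.Injective (ζ (ω.1.2 b (i b))) ∧
      ∀ f, Rich G k r ω.1.1 (ζ (ω.1.2 b (i b)) f) ∧ ζ (ω.1.2 b (i b)) f ∉ insert ω.2 (vs i ω.1))
    (hleg : ∀ ω ∈ Ω, ∀ Z : Finset V, #Z ≤ rmin j F k N0 → Disjoint (pth i b ω.1) Z →
      ω.1.1 ∉ Z → ∃ q : ℕ → V, q 0 = ω.1.1 ∧ q (j b) = zb ω ∧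
        (∀ m, m < j b → G.Adj (q m) (q (m + 1))) ∧
        (∀ m m', m ≤ j b → m' ≤ j b → q m = q m' → m = m') ∧
        ∀ m, 1 ≤ m → m < j b → q m ∉ Z)
    (hcov : ∀ T : (ι → V) → V → Finset V, (∀ W v, #(T W v) ≤ nmin j N0) →
      2 * #{ω ∈ Ω | ¬ Disjoint (inn i ω.1) (T (ends i ω.1) ω.2)} ≤ #Ω)
    (hst : ∀ l, l ≠ b → i l < j l → 2 * (Fintype.card ι * (nmin j N0 *
      #(Ω.image fun ω => (tr (Function.update (dn i l) b 0) ω.1, ω.1.2 b (i b), ω.2)))) < #Ω) :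
    ∃ X : ι ⊕ F → V, Flex G (Sum.elim j fun _ => k) N0 X := by
  sorry

theorem stepD {ι : Type} [Fintype ι] (F : Type) [Fintype F] (i j : ι → ℕ) (b : ι)
    (k K B N0 M3 : ℕ) (R : ℕ → ℕ) (hi : ∀ c, 1 ≤ i c ∧ i c ≤ j c) (hj : ∀ c, j c < k)
    (hi1 : ∀ c c', i c = 1 → i c' = 1 → c = c') (hb : 2 ≤ i b) (hbj : i b < j b) :
    ∃ f0 M1 M2 d0 : ℕ, ∀ {V : Type} [Fintype V] [Nonempty V] (G : SimpleGraph V) (d r : ℕ),
      (∀ w, G.degree w ≤ K * d) → d0 ≤ d → rmin j F k N0 ≤ r →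
      ∀ (T2 : Finset (Obj ι V)) (EE : Finset ((ι → V) × V)), Sys G k r B d R i b T2 EE →
      M1 * (Fintype.card V * d ^ (∑ c, i c)) ≤ #(Om i T2 EE) →
      (∀ Tc : (ι → V) → V → Finset V, (∀ W v, #(Tc W v) ≤ nmin j N0) →
        M2 * #{ω ∈ Om i T2 EE | ¬ Disjoint (inn i ω.1) (Tc (ends i ω.1) ω.2)} ≤
          #(Om i T2 EE)) →
      #(Om i T2 EE) ≤ M3 * #{ω ∈ Om i T2 EE | f0 < fan i b T2 EE ω} →
      ∃ X : ι ⊕ F → V, Flex G (Sum.elim j fun _ => k) N0 X := by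
  sorry

/-! ### D12: assembly -/

theorem world_k {ι F : Type} [Fintype ι] [Fintype F] [Nonempty ι] [Nonempty F] (j : ι → ℕ)
    (k N0 K : ℕ) (hK : 1 ≤ K) (hj1 : ∀ c, 1 ≤ j c) (hj : ∀ c, j c < k)
    (hk : 2 ≤ k) (hT : (Fintype.card ι - 1) * k + 1 ≤ ∑ c, j c) :
    World (Sum.elim j fun _ : F => k) N0 K k := by
  sorry

end Pool.Agent.Helper14.SP
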