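import Pool.Agent.Helper14.SP2.St.A
import Pool.Agent.Helper14.SP2.St.B

/-!
# Project SP2: Theorem L (restricted centres)
-/

set_option autoImplicit false

namespace Pool.Agent.Helper14.SP

open Finset Classical
open Pool.Agent.Helper97.RE (IsPath Rich PP Clean Cb)

/-- Theorem L: a positive proportion of the copies with centre in `C` is good, and
`n ^ |ι|` is small against `|C| d ^ |j|`; then some tuple of roots is flexible, with centres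
in `C`. -/
theorem thmL {ι : Type} [Fintype ι] [Nonempty ι] (j : ι → ℕ) (hj : ∀ c, 1 ≤ j c) (L : ℕ) (hL : ∀ c, j c ≤ L)
    (K E N0 : ℕ) (R : ℕ → ℕ) : ∃ A : ℕ, ∀ {V : Type} [Fintype V] [Nonempty V]
      (G : SimpleGraph V) (d : ℕ), (∀ w, G.degree w ≤ K * d) → A ≤ d →
      ∀ (C Y : Finset V) (Ω : Finset (Obj ι V)) (Ψ : V → Finset V → Prop),
      (∀ x ∈ Ω, Good G L R j x ∧ x.1 ∈ C ∧ x.1 ∉ Y ∧ ∀ c m, m ≤ j c → x.2 c m ∉ Y) →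
      #C * d ^ (∑ c, j c) ≤ E * #Ω →
      A * Fintype.card V ^ (Fintype.card ι) ≤ #C * d ^ (∑ c, j c) →
      (∀ u Z Z', Z ⊆ Z' → Ψ u Z' → Ψ u Z) →
      (∀ u ∈ C, ∀ Z : Finset V, #Z ≤ N0 + 3 * (∑ c, (j c + 1) + 1) → Ψ u Z) →
      ∃ X : ι → V, (∀ c, X c ∉ Y) ∧ ∀ Z : Finset V, #Z ≤ N0 → (∀ c, X c ∉ Z) →
        ∃ x : Obj ι V, Sp G j x ∧ (∀ c, x.2 c (j c) = X c) ∧ x.1 ∉ Z ∧ x.1 ∉ Y ∧
          (∀ c m, 1 ≤ m → m < j c → x.2 c m ∉ Z ∧ x.2 c m ∉ Y) ∧ Ψ x.1 (Z ∪ vs j x) := by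
  sorry

end Pool.Agent.Helper14.SP
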